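import Pool.Agent.Helper52.GPM.S

/-!
# Gilbert-Pollak, module stSel
-/

namespace Pool.Agent.Helper63.GPM

open Relation Classical Pool.Agent.Helper18.GP Pool.Agent.Helper52.GPM

theorem mod_stSel (h : mExit) : stSel := by
  intro N V A F hFA w hw u hu hwu huA
  by_contra hcon
  push Not at hcon
  obtain ⟨h1, h2⟩ := hcon
  set S := Arc V w u with hS
  set T := Arc V u w with hT
  have huS : u ∈ S := right_mem_Arc hu
  have huT : u ∈ T := left_mem_Arc hu
  have h1w : ¬ EqvGen (Fr F S) u w := h1 w (Finset.mem_insert_self _ _)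
  have h2w : ¬ EqvGen (Fr F T) u w := h2 w (Finset.mem_insert_self _ _)
  let R : Fin N → Prop := fun x =>
    (x ∈ S ∧ EqvGen (Fr F S) u x) ∨ (x ∈ T ∧ EqvGen (Fr F T) u x)
  have key : ∀ x y, (F x y ∨ F y x) → R x → R y := by
    intro x y hxy hx
    have hB : Bd V x y ∨ Bd V y x := hxy.imp (hFA.FB _ _) (hFA.FB _ _)
    have hyV : y ∈ V := by
      rcases hB with hB | hB
      · exact hB.2.1
      · exact hB.1
    have step : ∀ Q : Finset (Fin N), x ∈ Q → y ∈ Q → EqvGen (Fr F Q) x y := by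
      intro Q hxQ hyQ
      rcases hxy with hxy | hxy
      · exact EqvGen.rel _ _ ⟨hxy, hxQ, hyQ⟩
      · exact EqvGen.symm _ _ (EqvGen.rel _ _ ⟨hxy, hyQ, hxQ⟩)
    rcases hx with ⟨hxS, hx⟩ | ⟨hxT, hx⟩
    · by_cases hyS : y ∈ S
      · exact Or.inl ⟨hyS, EqvGen.trans _ _ _ hx (step S hxS hyS)⟩
      · rcases h N V w u x y hw hu hwu hB hxS hyS with rfl | rfl
        · exact absurd hx h1w
        · have hyT : y ∈ T := by
            rcases mem_Arc_or (a := w) (c := x) (Ne.symm hwu) hyV with h' | h'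
            · exact absurd h' hyS
            · exact h'
          exact Or.inr ⟨hyT, step T huT hyT⟩
    · by_cases hyT : y ∈ T
      · exact Or.inr ⟨hyT, EqvGen.trans _ _ _ hx (step T hxT hyT)⟩
      · rcases h N V u w x y hu hw hwu.symm hB hxT hyT with rfl | rfl
        · have hyS : y ∈ S := by
            rcases mem_Arc_or (a := x) (c := w) hwu hyV with h' | h'
            · exact absurd h' hyT
            · exact h'
          exact Or.inl ⟨hyS, step S huS hyS⟩
        · exact absurd hx h2w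
  have gen : ∀ x y, EqvGen F x y → (R x ↔ R y) := by
    intro x y hxy
    induction hxy with
    | rel x y hxy => exact ⟨key x y (Or.inl hxy), key y x (Or.inr hxy)⟩
    | refl x => exact Iff.rfl
    | symm x y _ ih => exact ih.symm
    | trans x y z _ _ ih1 ih2 => exact ih1.trans ih2
  obtain ⟨a, haA, hua⟩ := hFA.cov u hu
  have hRa : R a := (gen u a hua).1 (Or.inl ⟨huS, EqvGen.refl _⟩)
  rcases hRa with ⟨haS, ha⟩ | ⟨haT, ha⟩
  · exact h1 a (Finset.mem_insert_of_mem (Finset.mem_inter.2 ⟨haA, haS⟩)) ha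
  · exact h2 a (Finset.mem_insert_of_mem (Finset.mem_inter.2 ⟨haA, haT⟩)) ha

end Pool.Agent.Helper63.GPM
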